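import Pool.Agent.helper69.GR2B.Spec

set_option autoImplicit false

open Complex Metric Set Filter Topology MeasureTheory
open MPS (om)
open PPS (pre TT fd)
open XPS (Df er dens tau)
open Pool.Agent.helper16.Multibrot

noncomputable section

namespace GR

theorem BCF (hZRO : ZRO_stmt) (hKFN : KFN_stmt) (hKUB : KUB_stmt) (hCEL : CEL_stmt)
    (hNAT : NAT_stmt) : BCF_stmt := by
  intro C D n c p q G hC hD hR hT hX
  obtain ⟨-, -, -, -, -, -, -, -, -, -, hRR⟩ := hNAT n c hR.hn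
  obtain ⟨hR0, hR2, hX1, hRX, hAne, -, hxc⟩ := hRR p q hR
  have hC1 : 1 ≤ C := hC.1
  have hD1 : 1 ≤ D := hD.1
  have hC0 : 0 < C := by linarith
  obtain ⟨m, hm, hNu⟩ := hZRO C n c p q G hC hR hT (by linarith)
  obtain ⟨K, hKd, hK0, hKa, hKw⟩ := hKFN C n c p q G m hC hR hT (by linarith) hm hNu
  obtain ⟨-, -, hlam⟩ := hCEL C n c p q G hC hR hT (by linarith)
  obtain ⟨S, hS⟩ : ∃ S, S = R n c q := ⟨_, rfl⟩
  rw [← hS] at hR0 hR2 hRX hKd hK0 hKw
  obtain ⟨r, hr⟩ : ∃ r, r = S / (16 * C) := ⟨_, rfl⟩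
  have hr0 : 0 < r := by rw [hr]; positivity
  have hr8 : S / (8 * C) = 2 * r := by rw [hr]; field_simp; norm_num
  have hZ : ‖Z n c p‖ ≤ r / 8 := by
    have h1 : ‖Z n c p‖ * (128 * C) ≤ S := by
      rw [hRX]
      nlinarith [norm_nonneg (Z n c p)]
    rw [hr, div_div, le_div_iff₀ (by positivity)]
    calc ‖Z n c p‖ * (16 * C * 8) = ‖Z n c p‖ * (128 * C) := by ring
      _ ≤ S := h1
  rw [hr8] at hKd hK0 hKw
  have hsub : closedBall (Z n c p) r ⊆ ball 0 (2 * r) := by
    intro u hu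
    rw [mem_closedBall, dist_eq_norm] at hu
    rw [mem_ball_zero_iff]
    have h1 : ‖u‖ ≤ ‖u - Z n c p‖ + ‖Z n c p‖ := by
      have := norm_add_le (u - Z n c p) (Z n c p)
      rwa [sub_add_cancel] at this
    linarith
  have hbd : ∀ u ∈ closedBall (Z n c p) r, ‖K u‖ ≤ 4 * C * (1 + D) * SS n c p := by
    intro u hu
    have hcl : closure (ball (Z n c p) r) = closedBall (Z n c p) r := closure_ball _ hr0.ne'
    refine Complex.norm_le_of_forall_mem_frontier_norm_le (U := ball (Z n c p) r) isBounded_ball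
      (DifferentiableOn.diffContOnCl ?_) ?_ (by rw [hcl]; exact hu)
    · rw [hcl]
      exact hKd.mono hsub
    · intro v hv
      rw [frontier_ball _ hr0.ne', mem_sphere, dist_eq_norm] at hv
      have hvb : v ∈ ball (0 : ℂ) (2 * r) := hsub (by rw [mem_closedBall, dist_eq_norm, hv])
      have hvne : v ≠ Z n c p := by
        intro h0
        rw [h0, sub_self, norm_zero] at hv
        exact hr0.ne hv
      rw [hKw v hvb hvne]
      exact hKUB C D n c p q G m hC hD hR hT hX hm v (by rw [hv, hr, hS])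
  have hxc1 : ‖xc n c p q (p - m) - 1‖ ≤ 1 / 64 := by
    refine (hxc (p - m)).trans (hlam.trans ?_)
    rw [div_le_iff₀ (by linarith)]
    linarith
  refine ⟨m, hm, K, ?_, ?_, ?_⟩
  · rw [← hS, ← hr]
    exact hKd.mono (ball_subset_closedBall.trans hsub)
  · rw [hKa]; exact hxc1
  · intro w hw
    rw [← hS, ← hr] at hw
    have hwc := ball_subset_closedBall hw
    exact ⟨hK0 w (hsub hwc), hbd w hwc, fun hne => hKw w (hsub hwc) hne⟩

end GR
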